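import Mathlib

/-!
Definitions for the normal defect, and the inertia lower bound for cyclic weighted shifts.
-/
open Matrix

namespace Helper495_ND

/-- `M` has a normal completion of size `m + k`. -/
def HasNC {m : ℕ} (M : Matrix (Fin m) (Fin m) ℂ) (k : ℕ) : Prop :=
  ∃ N : Matrix (Fin (m + k)) (Fin (m + k)) ℂ, N * Nᴴ = Nᴴ * N ∧
    ∀ i j : Fin m, N (Fin.castAdd k i) (Fin.castAdd k j) = M i j

/-- the normal defect -/
noncomputable def nd {m : ℕ} (M : Matrix (Fin m) (Fin m) ℂ) : ℕ := sInf {k | HasNC M k}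

/-- the cyclic weighted shift (`i + 1` is addition modulo `n`) -/
def cyc {n : ℕ} [NeZero n] (a : Fin n → ℂ) : Matrix (Fin n) (Fin n) ℂ :=
  of fun i j => if j = i + 1 then a i else 0

/-- the truncated extension of size `n + 1` -/
def line {n : ℕ} (a : Fin n → ℂ) : Matrix (Fin (n + 1)) (Fin (n + 1)) ℂ :=
  of fun i j => if h : (i : ℕ) + 1 = (j : ℕ) then a ⟨i, by omega⟩ else 0

theorem HasNC_self {m : ℕ} (M : Matrix (Fin m) (Fin m) ℂ) : HasNC M m := by
  refine ⟨(fromBlocks M Mᴴ Mᴴ M).submatrix finSumFinEquiv.symm finSumFinEquiv.symm, ?_, ?_⟩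
  · rw [conjTranspose_submatrix, submatrix_mul_equiv, submatrix_mul_equiv,
      fromBlocks_conjTranspose, fromBlocks_multiply, fromBlocks_multiply]
    congr 1
    rw [conjTranspose_conjTranspose]
    congr 1
    · rw [add_comm]
    · rw [add_comm]
    · rw [add_comm]
    · rw [add_comm]
  · intro i j
    simp

theorem nd_spec {m : ℕ} (M : Matrix (Fin m) (Fin m) ℂ) : HasNC M (nd M) :=
  Nat.sInf_mem (s := {k | HasNC M k}) ⟨m, HasNC_self M⟩

theorem nd_le {m : ℕ} {M : Matrix (Fin m) (Fin m) ℂ} {k : ℕ} (h : HasNC M k) : nd M ≤ k :=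
  Nat.sInf_le h

theorem sum_norm_eq {m : ℕ} (u : Fin m → ℂ) : ((∑ z, ‖u z‖ ^ 2 : ℝ) : ℂ) = star u ⬝ᵥ u := by
  simp only [dotProduct, Pi.star_apply, RCLike.star_def]
  push_cast
  refine Finset.sum_congr rfl fun z _ => ?_
  rw [Complex.conj_mul']

theorem normal_norm {m : ℕ} (N : Matrix (Fin m) (Fin m) ℂ) (hN : N * Nᴴ = Nᴴ * N) (w : Fin m → ℂ) :
    ∑ z, ‖(N *ᵥ w) z‖ ^ 2 = ∑ z, ‖(Nᴴ *ᵥ w) z‖ ^ 2 := by
  have h1 : ((∑ z, ‖(N *ᵥ w) z‖ ^ 2 : ℝ) : ℂ) = ((∑ z, ‖(Nᴴ *ᵥ w) z‖ ^ 2 : ℝ) : ℂ) := by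
    rw [sum_norm_eq, sum_norm_eq, star_mulVec, star_mulVec, conjTranspose_conjTranspose,
      ← dotProduct_mulVec, ← dotProduct_mulVec, mulVec_mulVec, mulVec_mulVec, hN]
  exact_mod_cast h1

theorem key {n : ℕ} [NeZero n] (a : Fin n → ℂ) {k : ℕ}
    (N : Matrix (Fin (n + k)) (Fin (n + k)) ℂ) (hN : N * Nᴴ = Nᴴ * N)
    (hM : ∀ i j : Fin n, N (Fin.castAdd k i) (Fin.castAdd k j) = cyc a i j) (w : Fin n → ℂ) :
    ∑ i, ‖a (i - 1)‖ ^ 2 * ‖w i‖ ^ 2 + ∑ j : Fin k, ‖∑ i, N (Fin.natAdd n j) (Fin.castAdd k i) * w i‖ ^ 2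
      = ∑ i, ‖a i‖ ^ 2 * ‖w i‖ ^ 2 +
        ∑ j : Fin k, ‖∑ i, star (N (Fin.castAdd k i) (Fin.natAdd n j)) * w i‖ ^ 2 := by
  have h := normal_norm N hN (Fin.append w (fun _ => 0))
  rw [Fin.sum_univ_add, Fin.sum_univ_add] at h
  have e1 : ∀ z, (N *ᵥ (Fin.append w (fun _ => 0))) z = ∑ i, N z (Fin.castAdd k i) * w i := by
    intro z
    simp only [mulVec, dotProduct]
    rw [Fin.sum_univ_add]
    simp
  have e2 : ∀ z, (Nᴴ *ᵥ (Fin.append w (fun _ => 0))) z = ∑ i, star (N (Fin.castAdd k i) z) * w i := by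
    intro z
    simp only [mulVec, dotProduct, conjTranspose_apply]
    rw [Fin.sum_univ_add]
    simp
  have e3 : ∀ i : Fin n, ∑ l, N (Fin.castAdd k i) (Fin.castAdd k l) * w l = a i * w (i + 1) := by
    intro i
    simp only [hM, cyc, of_apply, ite_mul, zero_mul, Finset.sum_ite_eq', Finset.mem_univ, if_true]
  have e4 : ∀ i : Fin n, ∑ l, star (N (Fin.castAdd k l) (Fin.castAdd k i)) * w l =
      star (a (i - 1)) * w (i - 1) := by
    intro i
    simp only [hM, cyc, of_apply]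
    rw [Finset.sum_eq_single (i - 1)]
    · simp
    · intro b _ hb
      rw [if_neg]
      · simp
      · intro hh
        exact hb (by rw [hh]; simp)
    · simp
  simp only [e1, e2, e3, e4, norm_mul, mul_pow, norm_star] at h
  have s1 : ∑ i : Fin n, ‖a i‖ ^ 2 * ‖w (i + 1)‖ ^ 2 = ∑ i, ‖a (i - 1)‖ ^ 2 * ‖w i‖ ^ 2 := by
    rw [← Equiv.sum_comp (Equiv.addRight (1 : Fin n)) (fun i => ‖a (i - 1)‖ ^ 2 * ‖w i‖ ^ 2)]
    simp
  have s2 : ∑ i : Fin n, ‖a (i - 1)‖ ^ 2 * ‖w (i - 1)‖ ^ 2 = ∑ i, ‖a i‖ ^ 2 * ‖w i‖ ^ 2 := by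
    rw [← Equiv.sum_comp (Equiv.subRight (1 : Fin n)) (fun i => ‖a i‖ ^ 2 * ‖w i‖ ^ 2)]
    simp
  rw [s1, s2] at h
  exact h

/-- a general counting principle -/
theorem card_le_of_form {n k : ℕ} (P : Finset (Fin n)) (C : Fin k → Fin n → ℂ)
    (h : ∀ w : Fin n → ℂ, (∀ i, i ∉ P → w i = 0) → (∀ j, ∑ i, C j i * w i = 0) → w = 0) :
    P.card ≤ k := by
  let L : (P → ℂ) →ₗ[ℂ] (Fin k → ℂ) :=
    { toFun := fun v j => ∑ i : P, C j i * v i
      map_add' := by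
        intro u v; ext j
        simp [mul_add, Finset.sum_add_distrib]
      map_smul' := by
        intro c v; ext j
        simp only [Pi.smul_apply, smul_eq_mul, RingHom.id_apply, Finset.mul_sum]
        exact Finset.sum_congr rfl fun i _ => by ring }
  have hinj : Function.Injective L := by
    rw [injective_iff_map_eq_zero]
    intro v hv
    let w : Fin n → ℂ := fun i => if hi : i ∈ P then v ⟨i, hi⟩ else 0
    have hw : w = 0 := by
      apply h
      · intro i hi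
        simp [w, hi]
      · intro j
        have hj := congrFun hv j
        have : ∑ i, C j i * w i = ∑ i : P, C j i * v i := by
          rw [← Finset.sum_subset (Finset.subset_univ P), ← Finset.sum_coe_sort P]
          · refine Finset.sum_congr rfl fun i _ => ?_
            simp [w]
          · intro i _ hi
            simp [w, hi]
        rw [this]
        exact hj
    ext i
    have := congrFun hw i
    simpa [w] using this
  have := LinearMap.finrank_le_finrank_of_injective hinj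
  simpa using this

theorem lower_asc {n : ℕ} [NeZero n] (a : Fin n → ℂ) {k : ℕ} (H : HasNC (cyc a) k) :
    (Finset.univ.filter fun i : Fin n => ‖a (i - 1)‖ < ‖a i‖).card ≤ k := by
  obtain ⟨N, hN, hM⟩ := H
  apply card_le_of_form _ (fun j i => N (Fin.natAdd n j) (Fin.castAdd k i))
  intro w hw hC
  have h := key a N hN hM w
  simp only [hC, norm_zero] at h
  have h2 : ∑ i, (‖a i‖ ^ 2 - ‖a (i - 1)‖ ^ 2) * ‖w i‖ ^ 2 ≤ 0 := by
    have hB : 0 ≤ ∑ j : Fin k, ‖∑ i, star (N (Fin.castAdd k i) (Fin.natAdd n j)) * w i‖ ^ 2 :=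
      Finset.sum_nonneg fun _ _ => by positivity
    simp only [sub_mul, Finset.sum_sub_distrib]
    simp at h
    simp at hB
    linarith
  have h3 : ∀ i ∈ Finset.univ, 0 ≤ (‖a i‖ ^ 2 - ‖a (i - 1)‖ ^ 2) * ‖w i‖ ^ 2 := by
    intro i _
    by_cases hi : ‖a (i - 1)‖ < ‖a i‖
    · have : ‖a (i - 1)‖ ^ 2 ≤ ‖a i‖ ^ 2 := by gcongr
      apply mul_nonneg (by linarith) (by positivity)
    · rw [hw i (by simpa using hi)]
      simp
  have h4 := (Finset.sum_eq_zero_iff_of_nonneg h3).mp (le_antisymm h2 (Finset.sum_nonneg h3))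
  ext i
  by_cases hi : ‖a (i - 1)‖ < ‖a i‖
  · have h5 := h4 i (Finset.mem_univ _)
    have : ‖a (i - 1)‖ ^ 2 < ‖a i‖ ^ 2 := by gcongr
    rcases mul_eq_zero.mp h5 with h6 | h6
    · linarith
    · simpa using h6
  · exact hw i (by simpa using hi)

theorem lower_desc {n : ℕ} [NeZero n] (a : Fin n → ℂ) {k : ℕ} (H : HasNC (cyc a) k) :
    (Finset.univ.filter fun i : Fin n => ‖a i‖ < ‖a (i - 1)‖).card ≤ k := by
  obtain ⟨N, hN, hM⟩ := H
  apply card_le_of_form _ (fun j i => star (N (Fin.castAdd k i) (Fin.natAdd n j)))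
  intro w hw hC
  have h := key a N hN hM w
  simp only [hC, norm_zero] at h
  have h2 : ∑ i, (‖a (i - 1)‖ ^ 2 - ‖a i‖ ^ 2) * ‖w i‖ ^ 2 ≤ 0 := by
    have hB : 0 ≤ ∑ j : Fin k, ‖∑ i, N (Fin.natAdd n j) (Fin.castAdd k i) * w i‖ ^ 2 :=
      Finset.sum_nonneg fun _ _ => by positivity
    simp only [sub_mul, Finset.sum_sub_distrib]
    simp at h
    linarith
  have h3 : ∀ i ∈ Finset.univ, 0 ≤ (‖a (i - 1)‖ ^ 2 - ‖a i‖ ^ 2) * ‖w i‖ ^ 2 := by
    intro i _
    by_cases hi : ‖a i‖ < ‖a (i - 1)‖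
    · have : ‖a i‖ ^ 2 ≤ ‖a (i - 1)‖ ^ 2 := by gcongr
      apply mul_nonneg (by linarith) (by positivity)
    · rw [hw i (by simpa using hi)]
      simp
  have h4 := (Finset.sum_eq_zero_iff_of_nonneg h3).mp (le_antisymm h2 (Finset.sum_nonneg h3))
  ext i
  by_cases hi : ‖a i‖ < ‖a (i - 1)‖
  · have h5 := h4 i (Finset.mem_univ _)
    have : ‖a i‖ ^ 2 < ‖a (i - 1)‖ ^ 2 := by gcongr
    rcases mul_eq_zero.mp h5 with h6 | h6
    · linarith
    · simpa using h6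
  · exact hw i (by simpa using hi)

end Helper495_ND
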