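import Mathlib

/-!
Surgery on normal completions.
-/
open Matrix

namespace Helper495_ND

/-- plane rotation between `inl i` and the new index -/
noncomputable def Rot {μ : Type} [Fintype μ] [DecidableEq μ] (i : μ) (c s : ℝ) :
    Matrix (μ ⊕ Unit) (μ ⊕ Unit) ℂ :=
  fromBlocks (diagonal (fun x => if x = i then (c : ℂ) else 1))
    (of fun x _ => if x = i then (-(s : ℂ)) else 0)
    (of fun _ y => if y = i then (s : ℂ) else 0)
    (of fun _ _ => (c : ℂ))

variable {μ : Type} [Fintype μ] [DecidableEq μ]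

theorem Rot_conj_mul (i : μ) (c s : ℝ) (h : c ^ 2 + s ^ 2 = 1) : (Rot i c s)ᴴ * Rot i c s = 1 := by
  have hC : (c : ℂ) * c + s * s = 1 := by
    have := congrArg (fun t : ℝ => (t : ℂ)) h
    push_cast at this
    linear_combination this
  unfold Rot
  rw [fromBlocks_conjTranspose, fromBlocks_multiply, ← fromBlocks_one]
  congr 1
  · ext x y
    simp only [diagonal_conjTranspose, diagonal_mul, Matrix.add_apply, mul_apply, conjTranspose_apply, of_apply,
      Finset.univ_unique, Finset.sum_singleton, diagonal_apply, one_apply, Pi.star_apply]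
    by_cases hx : x = i <;> by_cases hy : y = i <;> by_cases hxy : x = y <;>
      simp_all [Complex.conj_ofReal]
  · ext x y
    simp only [diagonal_conjTranspose, diagonal_mul, Matrix.add_apply, mul_apply, conjTranspose_apply, of_apply,
      Finset.univ_unique, Finset.sum_singleton, diagonal_apply, Pi.star_apply, Matrix.zero_apply]
    by_cases hx : x = i <;> simp [hx, Complex.conj_ofReal] <;> ring
  · ext x y
    simp only [mul_diagonal, Matrix.add_apply, mul_apply, conjTranspose_apply, of_apply,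
      Finset.univ_unique, Finset.sum_singleton, diagonal_apply, Pi.star_apply, Matrix.zero_apply]
    by_cases hx : y = i <;> simp [hx, Complex.conj_ofReal] <;> ring
  · ext x y
    simp only [Matrix.add_apply, mul_apply, conjTranspose_apply, of_apply,
      Finset.univ_unique, Finset.sum_singleton, one_apply]
    simp [Complex.conj_ofReal, Finset.sum_ite_eq']
    linear_combination hC

theorem Rot_mul_conj (i : μ) (c s : ℝ) (h : c ^ 2 + s ^ 2 = 1) : Rot i c s * (Rot i c s)ᴴ = 1 :=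
  mul_eq_one_comm.mp (Rot_conj_mul i c s h)

/-- `G` extended by the scalar `t` -/
noncomputable def Ext (G : Matrix μ μ ℂ) (t : ℂ) : Matrix (μ ⊕ Unit) (μ ⊕ Unit) ℂ :=
  fromBlocks G 0 0 (of fun _ _ => t)

theorem Ext_mul (G H : Matrix μ μ ℂ) (t u : ℂ) : Ext G t * Ext H u = Ext (G * H) (t * u) := by
  unfold Ext
  rw [fromBlocks_multiply]
  congr 1
  · simp
  · simp
  · simp
  · ext x y
    simp [mul_apply]

theorem Ext_conj (G : Matrix μ μ ℂ) (t : ℂ) : (Ext G t)ᴴ = Ext Gᴴ (star t) := by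
  unfold Ext
  rw [fromBlocks_conjTranspose]
  congr 1
  · simp
  · simp

theorem Rot_comm (i : μ) (c s : ℝ) (G : Matrix μ μ ℂ) (t : ℂ)
    (h1 : ∀ x, G x i = if x = i then t else 0) (h2 : ∀ x, G i x = if x = i then t else 0) :
    Rot i c s * Ext G t = Ext G t * Rot i c s := by
  unfold Rot Ext
  rw [fromBlocks_multiply, fromBlocks_multiply]
  congr 1
  · ext x y
    simp only [diagonal_mul, mul_diagonal, Matrix.add_apply, mul_zero, zero_mul]
    simp only [mul_apply, of_apply, Matrix.zero_apply, mul_zero, zero_mul, Finset.sum_const_zero]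
    by_cases hx : x = i <;> by_cases hy : y = i
    · subst hx; subst hy; simp; ring
    · subst hx; simp [h2, hy]
    · subst hy; simp [h1, hx]
    · simp [hx, hy]
  · ext x y
    simp only [diagonal_mul, mul_diagonal, Matrix.add_apply, mul_zero, zero_mul]
    simp only [mul_apply, of_apply, Matrix.zero_apply, mul_zero, zero_mul, Finset.sum_const_zero,
      Finset.univ_unique, Finset.sum_singleton]
    simp [h1]
    by_cases hx : x = i <;> simp [hx] <;> ring
  · ext x y
    simp only [Matrix.add_apply, mul_apply, of_apply, Matrix.zero_apply, mul_zero, zero_mul, Finset.sum_const_zero,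
      Finset.univ_unique, Finset.sum_singleton]
    simp [h2]
    by_cases hx : y = i <;> simp [hx] <;> ring
  · ext x y
    simp only [Matrix.add_apply, mul_apply, of_apply, Matrix.zero_apply, mul_zero, zero_mul, Finset.sum_const_zero,
      Finset.univ_unique, Finset.sum_singleton]
    ring

theorem Rot_conj (i : μ) (c s : ℝ) : (Rot i c s)ᴴ = Rot i c (-s) := by
  unfold Rot
  rw [fromBlocks_conjTranspose]
  congr 1
  · rw [diagonal_conjTranspose]
    congr 1
    ext x
    simp only [Pi.star_apply]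
    split_ifs <;> simp
  · ext x y
    simp only [conjTranspose_apply, of_apply]
    split_ifs <;> simp
  · ext x y
    simp only [conjTranspose_apply, of_apply]
    split_ifs <;> simp
  · ext x y
    simp [conjTranspose_apply]

/-- `M` has a normal dilation with `k` extra indices; the indices in `I` are eigenvectors of `N* N`
with eigenvalue `h^2`. -/
def CH {ι : Type} [Fintype ι] [DecidableEq ι] (M : Matrix ι ι ℂ) (k : ℕ) (h : ℝ) (I : Set ι) : Prop :=
  ∃ (μ : Type) (_ : Fintype μ) (_ : DecidableEq μ) (f : ι ↪ μ) (N : Matrix μ μ ℂ),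
    Fintype.card μ = Fintype.card ι + k ∧ N * Nᴴ = Nᴴ * N ∧ (∀ i j, N (f i) (f j) = M i j) ∧
      ∀ i ∈ I, ∀ x, (Nᴴ * N) x (f i) = if x = f i then (h : ℂ) ^ 2 else 0

variable {ι : Type} [Fintype ι] [DecidableEq ι]

theorem herm_row {G : Matrix μ μ ℂ} (hG : Gᴴ = G) {i : μ} {t : ℝ}
    (h1 : ∀ x, G x i = if x = i then (t : ℂ) ^ 2 else 0) :
    ∀ x, G i x = if x = i then (t : ℂ) ^ 2 else 0 := by
  intro x
  have h := congrFun (congrFun hG i) x
  rw [conjTranspose_apply, h1] at h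
  rw [← h]
  split_ifs <;> simp

theorem CH_row {M : Matrix ι ι ℂ} {k : ℕ} {h : ℝ} {I : Set ι} (H : CH M k h I) {i : ι} (hi : i ∈ I)
    (c : ℝ) (hc0 : 0 ≤ c) (hc1 : c ≤ 1) :
    CH (fun a b => (if a = i then (c : ℂ) else 1) * M a b) (k + 1) h I := by
  obtain ⟨μ, _, _, f, N, hcard, hN, hM, hI⟩ := H
  set s : ℝ := Real.sqrt (1 - c ^ 2) with hs
  have hcs : c ^ 2 + s ^ 2 = 1 := by
    rw [hs, Real.sq_sqrt]; ring
    nlinarith
  have hG : (Nᴴ * N)ᴴ = Nᴴ * N := by simp
  have hcomm := Rot_comm (f i) c s (Nᴴ * N) ((h : ℂ) ^ 2) (hI i hi) (herm_row hG (hI i hi))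
  have hE : Ext N (h : ℂ) * (Ext N (h : ℂ))ᴴ = Ext (Nᴴ * N) ((h : ℂ) ^ 2) := by
    rw [Ext_conj, Ext_mul, hN]; congr 1; simp [sq]
  have hE' : (Ext N (h : ℂ))ᴴ * Ext N (h : ℂ) = Ext (Nᴴ * N) ((h : ℂ) ^ 2) := by
    rw [Ext_conj, Ext_mul]; congr 1; simp [sq]
  have hleft : (Rot (f i) c s * Ext N (h : ℂ))ᴴ * (Rot (f i) c s * Ext N (h : ℂ)) =
      Ext (Nᴴ * N) ((h : ℂ) ^ 2) := by
    rw [conjTranspose_mul, Matrix.mul_assoc, ← Matrix.mul_assoc (Rot (f i) c s)ᴴ,
      Rot_conj_mul _ _ _ hcs, Matrix.one_mul, hE']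
  refine ⟨μ ⊕ Unit, inferInstance, inferInstance, f.trans Function.Embedding.inl,
    Rot (f i) c s * Ext N (h : ℂ), ?_, ?_, ?_, ?_⟩
  · simp [hcard]; ring
  · rw [hleft, conjTranspose_mul, Matrix.mul_assoc, ← Matrix.mul_assoc (Ext N (h : ℂ)), hE,
      ← Matrix.mul_assoc, hcomm, Matrix.mul_assoc, Rot_mul_conj _ _ _ hcs, Matrix.mul_one]
  · intro a b
    simp only [Function.Embedding.trans_apply, Function.Embedding.inl_apply]
    unfold Rot Ext
    rw [fromBlocks_multiply, fromBlocks_apply₁₁]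
    simp [diagonal_mul, hM]
  · intro a ha x
    rw [hleft]
    simp only [Function.Embedding.trans_apply, Function.Embedding.inl_apply]
    unfold Ext
    rcases x with x | x
    · rw [fromBlocks_apply₁₁, hI a ha]
      simp
    · simp

theorem CH_col {M : Matrix ι ι ℂ} {k : ℕ} {h : ℝ} {I : Set ι} (H : CH M k h I) {i : ι} (hi : i ∈ I)
    (c : ℝ) (hc0 : 0 ≤ c) (hc1 : c ≤ 1) :
    CH (fun a b => M a b * (if b = i then (c : ℂ) else 1)) (k + 1) h I := by
  obtain ⟨μ, _, _, f, N, hcard, hN, hM, hI⟩ := H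
  set s : ℝ := Real.sqrt (1 - c ^ 2) with hs
  have hcs : c ^ 2 + s ^ 2 = 1 := by
    rw [hs, Real.sq_sqrt]; ring
    nlinarith
  have hG : (Nᴴ * N)ᴴ = Nᴴ * N := by simp
  have hcomm := Rot_comm (f i) c s (Nᴴ * N) ((h : ℂ) ^ 2) (hI i hi) (herm_row hG (hI i hi))
  have hE : Ext N (h : ℂ) * (Ext N (h : ℂ))ᴴ = Ext (Nᴴ * N) ((h : ℂ) ^ 2) := by
    rw [Ext_conj, Ext_mul, hN]; congr 1; simp [sq]
  have hE' : (Ext N (h : ℂ))ᴴ * Ext N (h : ℂ) = Ext (Nᴴ * N) ((h : ℂ) ^ 2) := by
    rw [Ext_conj, Ext_mul]; congr 1; simp [sq]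
  have hleft : (Ext N (h : ℂ) * Rot (f i) c s)ᴴ * (Ext N (h : ℂ) * Rot (f i) c s) =
      Ext (Nᴴ * N) ((h : ℂ) ^ 2) := by
    rw [conjTranspose_mul, Matrix.mul_assoc, ← Matrix.mul_assoc (Ext N (h : ℂ))ᴴ, hE',
      ← hcomm, ← Matrix.mul_assoc, Rot_conj_mul _ _ _ hcs, Matrix.one_mul]
  refine ⟨μ ⊕ Unit, inferInstance, inferInstance, f.trans Function.Embedding.inl,
    Ext N (h : ℂ) * Rot (f i) c s, ?_, ?_, ?_, ?_⟩
  · simp [hcard]; ring
  · rw [hleft, conjTranspose_mul, Matrix.mul_assoc, ← Matrix.mul_assoc (Rot (f i) c s),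
      Rot_mul_conj _ _ _ hcs, Matrix.one_mul, hE]
  · intro a b
    simp only [Function.Embedding.trans_apply, Function.Embedding.inl_apply]
    unfold Rot Ext
    rw [fromBlocks_multiply, fromBlocks_apply₁₁]
    simp [mul_diagonal, hM]
  · intro a ha x
    rw [hleft]
    simp only [Function.Embedding.trans_apply, Function.Embedding.inl_apply]
    unfold Ext
    rcases x with x | x
    · rw [fromBlocks_apply₁₁, hI a ha]
      simp
    · simp

theorem CH_vert {M : Matrix ι ι ℂ} {k : ℕ} {h : ℝ} (H : CH M k h ∅) {i : ι}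
    (c : ℝ) (hc0 : 0 ≤ c) (hc1 : c ≤ 1) :
    CH (fun a b => (if a = i then (c : ℂ) else 1) * M a b * (if b = i then (c : ℂ) else 1))
      (k + 1) h ∅ := by
  obtain ⟨μ, _, _, f, N, hcard, hN, hM, hI⟩ := H
  set s : ℝ := Real.sqrt (1 - c ^ 2) with hs
  have hcs : c ^ 2 + s ^ 2 = 1 := by
    rw [hs, Real.sq_sqrt]; ring
    nlinarith
  refine ⟨μ ⊕ Unit, inferInstance, inferInstance, f.trans Function.Embedding.inl,
    (Rot (f i) c s)ᴴ * Ext N 0 * Rot (f i) c s, ?_, ?_, ?_, ?_⟩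
  · simp [hcard]; ring
  · have e1 : ∀ X Y R : Matrix (μ ⊕ Unit) (μ ⊕ Unit) ℂ, R * Rᴴ = 1 →
        (Rᴴ * X * R) * (Rᴴ * Y * R) = Rᴴ * (X * Y) * R := by
      intro X Y R hR
      calc (Rᴴ * X * R) * (Rᴴ * Y * R) = Rᴴ * X * (R * Rᴴ) * Y * R := by
            simp only [Matrix.mul_assoc]
        _ = Rᴴ * (X * Y) * R := by rw [hR]; simp only [Matrix.mul_assoc, Matrix.one_mul]
    have e2 : ((Rot (f i) c s)ᴴ * Ext N 0 * Rot (f i) c s)ᴴ =
        (Rot (f i) c s)ᴴ * (Ext N 0)ᴴ * Rot (f i) c s := by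
      simp only [conjTranspose_mul, conjTranspose_conjTranspose, Matrix.mul_assoc]
    rw [e2, e1 _ _ _ (Rot_mul_conj _ _ _ hcs), e1 _ _ _ (Rot_mul_conj _ _ _ hcs), Ext_conj, Ext_mul,
      Ext_mul, hN]
    simp
  · intro a b
    simp only [Function.Embedding.trans_apply, Function.Embedding.inl_apply]
    rw [Rot_conj]
    unfold Rot Ext
    rw [fromBlocks_multiply, fromBlocks_multiply, fromBlocks_apply₁₁]
    simp only [Matrix.add_apply, Matrix.mul_zero, Matrix.zero_mul, add_zero, mul_diagonal, diagonal_mul, hM,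
      EmbeddingLike.apply_eq_iff_eq]
    rw [mul_apply]
    simp [mul_apply]
  · intro a ha
    exact absurd ha (by simp)

end Helper495_ND
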