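import Mathlib
import Pool.Agent.Helper495_ND.Surg
import Pool.Agent.Helper495_ND.Low

/-!
Base completions and assembly.
-/
open Matrix

namespace Helper495_ND

noncomputable def lineH (n : ℕ) (s h : ℝ) : Matrix (Fin (n + 1)) (Fin (n + 1)) ℂ :=
  of fun i j => if (i : ℕ) + 1 = j then (if (i : ℕ) = 0 ∨ (i : ℕ) + 1 = n then (s : ℂ) else (h : ℂ)) else 0

theorem base1 (n : ℕ) (h : ℝ) : CH (lineH n h h) 1 h Set.univ := by
  let N : Matrix (Fin (n + 2)) (Fin (n + 2)) ℂ := of fun i j => if j = i + 1 then (h : ℂ) else 0
  have e2 : Nᴴ * N = diagonal (fun _ => (h : ℂ) ^ 2) := by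
    ext x y
    simp only [N, mul_apply, conjTranspose_apply, of_apply, diagonal_apply]
    rw [Finset.sum_eq_single (x - 1)]
    · by_cases hxy : x = y
      · subst hxy; simp [sq]
      · have : ¬ y = x - 1 + 1 := by
          simpa using fun hh => hxy hh.symm
        simp [hxy]
        intro hh
        exact absurd hh.symm hxy
    · intro b _ hb
      rw [if_neg]
      · simp
      · intro hh
        exact hb (by rw [hh]; simp)
    · simp
  have e1 : N * Nᴴ = diagonal (fun _ => (h : ℂ) ^ 2) := by
    ext x y
    simp only [N, mul_apply, conjTranspose_apply, of_apply, diagonal_apply]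
    rw [Finset.sum_eq_single (x + 1)]
    · by_cases hxy : x = y
      · subst hxy; simp [sq]
      · simp [hxy]
    · intro b _ hb
      rw [if_neg hb]; simp
    · simp
  refine ⟨Fin (n + 2), inferInstance, inferInstance, Fin.castSuccEmb, N, by simp, ?_, ?_, ?_⟩
  · rw [e1, e2]
  · intro i j
    simp only [N, lineH, of_apply, Fin.coe_castSuccEmb]
    have : (j.castSucc = i.castSucc + 1) ↔ ((i : ℕ) + 1 = j) := by
      rw [Fin.ext_iff, Fin.val_add]
      have hi := i.isLt
      have hj := j.isLt
      simp only [Fin.val_castSucc, Fin.val_one]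
      rw [Nat.mod_eq_of_lt (by omega)]
      exact eq_comm
    simp only [this]
    split_ifs <;> rfl
  · intro i _ x
    rw [e2, diagonal_apply]

noncomputable def Sh (m : ℕ) : Matrix (Fin (m + 1)) (Fin (m + 1)) ℝ :=
  of fun a b => if (a : ℕ) + 1 = b then 1 else 0

theorem Sh_mul_T (m : ℕ) :
    Sh m * (Sh m)ᵀ = diagonal (fun a => if a = Fin.last m then (0 : ℝ) else 1) := by
  ext x y
  simp only [Sh, mul_apply, transpose_apply, of_apply, diagonal_apply]
  by_cases hx : x = Fin.last m
  · subst hx
    rw [Finset.sum_eq_zero]
    · simp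
    · intro b _
      rw [if_neg]
      · simp
      · simp only [Fin.val_last]
        have := b.isLt
        omega
  · have hx' : (x : ℕ) < m := by
      rcases Nat.lt_or_ge x m with h | h
      · exact h
      · exact absurd (Fin.ext (by simp; omega)) hx
    rw [Finset.sum_eq_single (⟨x + 1, by omega⟩ : Fin (m + 1))]
    · by_cases hxy : x = y
      · subst hxy; simp [hx]
      · have : ¬ ((y : ℕ) = x) := fun hh => hxy (Fin.ext hh.symm)
        simp [hxy, this]
    · intro b _ hb
      rw [if_neg]
      · simp
      · intro hh
        exact hb (Fin.ext hh.symm)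
    · simp

theorem Sh_T_mul (m : ℕ) :
    (Sh m)ᵀ * Sh m = diagonal (fun a => if a = 0 then (0 : ℝ) else 1) := by
  ext x y
  simp only [Sh, mul_apply, transpose_apply, of_apply, diagonal_apply]
  by_cases hx : x = 0
  · subst hx
    rw [Finset.sum_eq_zero]
    · simp
    · intro b _
      rw [if_neg]
      · simp
      · simp
  · have hx' : 0 < (x : ℕ) := by
      rcases Nat.eq_zero_or_pos x with h | h
      · exact absurd (Fin.ext (by simpa using h)) hx
      · exact h
    rw [Finset.sum_eq_single (⟨x - 1, by omega⟩ : Fin (m + 1))]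
    · by_cases hxy : x = y
      · subst hxy
        have h2 : (x : ℕ) - 1 + 1 = x := by omega
        simp [hx, h2]
      · have : ¬ ((x : ℕ) = y) := fun hh => hxy (Fin.ext hh)
        have h2 : ¬ ((x : ℕ) - 1 + 1 = y) := by omega
        simp [hxy, h2]
    · intro b _ hb
      rw [if_neg]
      · simp
      · intro hh
        exact hb (Fin.ext (by simp; omega))
    · simp

/-- end row pattern -/
noncomputable def Bm (m : ℕ) (β : Fin 4 → ℝ) : Matrix (Fin (m + 1)) (Fin 4) ℝ :=
  of fun a j => if a = Fin.last m then β j else 0

noncomputable def Cm (m : ℕ) (γ : Fin 4 → ℝ) : Matrix (Fin 4) (Fin (m + 1)) ℝ :=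
  of fun i b => if b = 0 then γ i else 0

theorem base2_real (m : ℕ) (h : ℝ) (β γ : Fin 4 → ℝ) (D : Matrix (Fin 4) (Fin 4) ℝ)
    (hβ : ∑ j, β j * β j = h ^ 2) (hγ : ∑ j, γ j * γ j = h ^ 2)
    (hDβ : ∀ i, ∑ j, D i j * β j = 0) (hDγ : ∀ i, ∑ j, D j i * γ j = 0)
    (hD : ∀ i j, γ i * γ j + ∑ l, D i l * D j l = β i * β j + ∑ l, D l i * D l j) :
    let N := fromBlocks (h • Sh m) (Bm m β) (Cm m γ) D
    N * Nᵀ = Nᵀ * N ∧ ∀ (a : Fin (m + 1)) x, (Nᵀ * N) x (Sum.inl a) =
      if x = Sum.inl a then h ^ 2 else 0 := by
  intro N
  have e2 : Nᵀ * N = fromBlocks (diagonal fun _ => h ^ 2) 0 0 ((Bm m β)ᵀ * Bm m β + Dᵀ * D) := by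
    simp only [N]
    rw [fromBlocks_transpose, fromBlocks_multiply]
    congr 1
    · rw [transpose_smul, smul_mul_smul_comm, Sh_T_mul]
      ext x y
      simp only [Matrix.add_apply, Matrix.smul_apply, diagonal_apply, mul_apply, transpose_apply, Cm,
        of_apply, smul_eq_mul]
      by_cases hx : x = 0 <;> by_cases hy : y = 0
      · subst hx; subst hy; simp [hγ]
      · subst hx; simp [hy, Ne.symm hy]
      · subst hy; simp [hx]
      · simp [hx, hy]
        split_ifs <;> ring
    · ext x y
      simp only [Matrix.add_apply, Matrix.smul_apply, mul_apply, transpose_apply, Cm, Bm, Sh,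
        of_apply, smul_eq_mul, Matrix.zero_apply]
      rw [Finset.sum_eq_zero, zero_add]
      · by_cases hx : x = 0
        · simp only [hx, if_true]
          rw [← hDγ y]
          exact Finset.sum_congr rfl fun i _ => by ring
        · simp [hx]
      · intro b _
        by_cases hb : b = Fin.last m
        · subst hb
          rw [if_neg]
          · simp
          · simp only [Fin.val_last]
            have := x.isLt
            omega
        · simp [hb]
    · ext x y
      simp only [Matrix.add_apply, Matrix.smul_apply, mul_apply, transpose_apply, Cm, Bm, Sh,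
        of_apply, smul_eq_mul, Matrix.zero_apply]
      rw [Finset.sum_eq_zero, zero_add]
      · by_cases hx : y = 0
        · simp only [hx, if_true]
          rw [← hDγ x]
        · simp [hx]
      · intro b _
        by_cases hb : b = Fin.last m
        · subst hb
          rw [if_neg (c := ((Fin.last m : Fin (m+1)) : ℕ) + 1 = (y : ℕ))]
          · simp
          · simp only [Fin.val_last]
            have := y.isLt
            omega
        · simp [hb]
  have e1 : N * Nᵀ = fromBlocks (diagonal fun _ => h ^ 2) 0 0 ((Bm m β)ᵀ * Bm m β + Dᵀ * D) := by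
    simp only [N]
    rw [fromBlocks_transpose, fromBlocks_multiply]
    congr 1
    · rw [transpose_smul, smul_mul_smul_comm, Sh_mul_T]
      ext x y
      simp only [Matrix.add_apply, Matrix.smul_apply, diagonal_apply, mul_apply, transpose_apply, Bm,
        of_apply, smul_eq_mul]
      by_cases hx : x = Fin.last m <;> by_cases hy : y = Fin.last m
      · subst hx; subst hy; simp [hβ]
      · subst hx; simp [hy, Ne.symm hy]
      · subst hy; simp [hx]
      · simp [hx, hy]
        split_ifs <;> ring
    · ext x y
      simp only [Matrix.add_apply, Matrix.smul_apply, mul_apply, transpose_apply, Cm, Bm, Sh,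
        of_apply, smul_eq_mul, Matrix.zero_apply]
      rw [Finset.sum_eq_zero, zero_add]
      · by_cases hx : x = Fin.last m
        · simp only [hx, if_true]
          rw [← hDβ y]
          exact Finset.sum_congr rfl fun i _ => by ring
        · simp [hx]
      · intro b _
        by_cases hb : b = 0
        · subst hb
          simp
        · simp [hb]
    · ext x y
      simp only [Matrix.add_apply, Matrix.smul_apply, mul_apply, transpose_apply, Cm, Bm, Sh,
        of_apply, smul_eq_mul, Matrix.zero_apply]
      rw [Finset.sum_eq_zero, zero_add]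
      · by_cases hx : y = Fin.last m
        · simp only [hx, if_true]
          rw [← hDβ x]
        · simp [hx]
      · intro b _
        by_cases hb : b = 0
        · subst hb
          simp
        · simp [hb]
    · ext x y
      have := hD x y
      simp only [Matrix.add_apply, mul_apply, transpose_apply, Cm, Bm, of_apply]
      rw [Finset.sum_eq_single (0 : Fin (m + 1)), Finset.sum_eq_single (Fin.last m)]
      · simpa using this
      · intro b _ hb
        simp [hb]
      · simp
      · intro b _ hb
        simp [hb]
      · simp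
  refine ⟨by rw [e1, e2], ?_⟩
  intro a x
  rw [e2]
  rcases x with x | x
  · simp [diagonal_apply]
  · simp

end Helper495_ND
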