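import Mathlib
import Pool.Agent.Helper495_ND.Base

open Matrix

namespace Helper495_ND

theorem base2 (m : ℕ) (s h : ℝ) (hs : 0 ≤ s) (hsh : s < h) :
    CH (lineH (m + 2) s h) 2 h {i | 1 ≤ (i : ℕ) ∧ (i : ℕ) ≤ m + 1} := by
  have hr2 : 0 < h ^ 2 - s ^ 2 := by nlinarith
  set r : ℝ := Real.sqrt (h ^ 2 - s ^ 2) with hr
  have hrr : r ^ 2 = h ^ 2 - s ^ 2 := by rw [hr, Real.sq_sqrt hr2.le]
  have hrp : 0 < r := Real.sqrt_pos.mpr hr2
  set κ : ℝ := Real.sqrt (r ^ 2 + h ^ 2) with hκ
  have hκκ : κ ^ 2 = r ^ 2 + h ^ 2 := by rw [hκ, Real.sq_sqrt (by positivity)]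
  have hκp : 0 < κ := Real.sqrt_pos.mpr (by positivity)
  obtain ⟨q, hq⟩ : ∃ q, q * κ = r ^ 2 := ⟨r ^ 2 / κ, by field_simp⟩
  obtain ⟨p, hp⟩ : ∃ p, p * κ = h ^ 2 := ⟨h ^ 2 / κ, by field_simp⟩
  obtain ⟨d, hd⟩ : ∃ d, d * κ = r * s := ⟨r * s / κ, by field_simp⟩
  have hκ0 : κ ≠ 0 := hκp.ne'
  have c1 : p ^ 2 = q ^ 2 + s ^ 2 := by
    have : (p ^ 2 - q ^ 2 - s ^ 2) * κ ^ 2 = 0 := by
      have e : (p ^ 2 - q ^ 2 - s ^ 2) * κ ^ 2 = (p * κ) ^ 2 - (q * κ) ^ 2 - s ^ 2 * κ ^ 2 := by ring
      rw [e, hp, hq, hκκ, hrr]; ring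
    have := (mul_eq_zero.mp this).resolve_right (pow_ne_zero 2 hκ0)
    linarith
  have c2 : (p + q) * d = s * r := by
    have hpq : p + q = κ := by
      have : (p + q - κ) * κ = 0 := by
        have e : (p + q - κ) * κ = p * κ + q * κ - κ ^ 2 := by ring
        rw [e, hp, hq, hκκ]; ring
      have := (mul_eq_zero.mp this).resolve_right hκ0
      linarith
    rw [hpq, mul_comm, hd]; ring
  have c3 : q * s = d * r := by
    have : (q * s - d * r) * κ = 0 := by
      have e : (q * s - d * r) * κ = (q * κ) * s - (d * κ) * r := by ring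
      rw [e, hq, hd]; ring
    have := (mul_eq_zero.mp this).resolve_right hκ0
    linarith
  have c4 : s ^ 2 + r ^ 2 = h ^ 2 := by rw [hrr]; ring
  let β : Fin 4 → ℝ := ![0, s, -r, 0]
  let γ : Fin 4 → ℝ := ![s, 0, r, 0]
  let D : Matrix (Fin 4) (Fin 4) ℝ := !![0, 0, 0, -q; 0, 0, 0, -p; 0, 0, 0, d; p, q, d, 0]
  obtain ⟨hN, hG⟩ := base2_real m h β γ D
    (by simp [β, Fin.sum_univ_four]; linarith)
    (by simp [γ, Fin.sum_univ_four]; linarith)
    (by intro i; fin_cases i <;> simp [β, D, Fin.sum_univ_four] <;> linarith)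
    (by intro i; fin_cases i <;> simp [γ, D, Fin.sum_univ_four] <;> linarith)
    (by
      intro i j
      fin_cases i <;> fin_cases j <;> simp [β, γ, D, Fin.sum_univ_four] <;> nlinarith)
  set N := fromBlocks (h • Sh m) (Bm m β) (Cm m γ) D with hNdef
  let f : Fin (m + 3) → Fin (m + 1) ⊕ Fin 4 := fun i =>
    if h0 : (i : ℕ) = 0 then Sum.inr 0 else if h1 : (i : ℕ) = m + 2 then Sum.inr 1
      else Sum.inl ⟨i - 1, by have := i.isLt; omega⟩
  have hf : Function.Injective f := by
    intro i j hij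
    simp only [f] at hij
    have hi := i.isLt
    have hj := j.isLt
    apply Fin.ext
    split_ifs at hij with h1 h2 h3 h4 h5 h6 h7 h8
    all_goals first
      | omega
      | (simp at hij; done)
      | (simp at hij; omega)
  have hmapG : (N.map (fun t : ℝ => (t : ℂ)))ᴴ = (Nᵀ).map (fun t : ℝ => (t : ℂ)) := by
    ext x y
    simp
  have hmul : ∀ X Y : Matrix (Fin (m + 1) ⊕ Fin 4) (Fin (m + 1) ⊕ Fin 4) ℝ,
      X.map (fun t : ℝ => (t : ℂ)) * Y.map (fun t : ℝ => (t : ℂ)) =
        (X * Y).map (fun t : ℝ => (t : ℂ)) := by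
    intro X Y
    ext x y
    simp [mul_apply]
  refine ⟨Fin (m + 1) ⊕ Fin 4, inferInstance, inferInstance, ⟨f, hf⟩, N.map (fun t : ℝ => (t : ℂ)),
    ?_, ?_, ?_, ?_⟩
  · simp
  · rw [hmapG, hmul, hmul, hN]
  · intro i j
    have hi := i.isLt
    have hj := j.isLt
    simp only [Function.Embedding.coeFn_mk, map_apply, lineH, of_apply, f]
    by_cases i0 : (i : ℕ) = 0
    · rw [dif_pos i0]
      by_cases j0 : (j : ℕ) = 0
      · rw [dif_pos j0, if_neg (by omega)]
        simp [hNdef, D]
      · rw [dif_neg j0]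
        by_cases j1 : (j : ℕ) = m + 2
        · rw [dif_pos j1, if_neg (by omega)]
          simp [hNdef, D]
        · rw [dif_neg j1]
          by_cases hij : (i : ℕ) + 1 = j
          · rw [if_pos hij, if_pos (Or.inl i0)]
            have : (⟨(j : ℕ) - 1, by omega⟩ : Fin (m + 1)) = 0 := Fin.ext (by simp; omega)
            simp [hNdef, Cm, this, γ]
          · rw [if_neg hij]
            have : ¬ (⟨(j : ℕ) - 1, by omega⟩ : Fin (m + 1)) = 0 := by
              intro hh
              have := congrArg Fin.val hh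
              simp at this
              omega
            simp only [hNdef, Cm, fromBlocks_apply₂₁, of_apply, if_neg this]
            simp
    · rw [dif_neg i0]
      by_cases i1 : (i : ℕ) = m + 2
      · rw [dif_pos i1, if_neg (by omega)]
        by_cases j0 : (j : ℕ) = 0
        · rw [dif_pos j0]
          simp [hNdef, D]
        · rw [dif_neg j0]
          by_cases j1 : (j : ℕ) = m + 2
          · rw [dif_pos j1]
            simp [hNdef, D]
          · rw [dif_neg j1]
            simp [hNdef, Cm, γ]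
      · rw [dif_neg i1]
        by_cases j0 : (j : ℕ) = 0
        · rw [dif_pos j0, if_neg (by omega)]
          simp [hNdef, Bm, β]
        · rw [dif_neg j0]
          by_cases j1 : (j : ℕ) = m + 2
          · rw [dif_pos j1]
            by_cases hij : (i : ℕ) + 1 = j
            · rw [if_pos hij, if_pos (Or.inr (by omega))]
              have : (⟨(i : ℕ) - 1, by omega⟩ : Fin (m + 1)) = Fin.last m :=
                Fin.ext (by simp; omega)
              simp [hNdef, Bm, this, β]
            · rw [if_neg hij]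
              have : ¬ (⟨(i : ℕ) - 1, by omega⟩ : Fin (m + 1)) = Fin.last m := by
                intro hh
                have := congrArg Fin.val hh
                simp at this
                omega
              simp only [hNdef, Bm, fromBlocks_apply₁₂, of_apply, if_neg this]
              simp
          · rw [dif_neg j1]
            simp only [hNdef, fromBlocks_apply₁₁, Matrix.smul_apply, Sh, of_apply, smul_eq_mul]
            by_cases hij : (i : ℕ) + 1 = j
            · have h2 : (i : ℕ) - 1 + 1 = (j : ℕ) - 1 := by omega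
              have h3 : ¬ ((i : ℕ) = 0 ∨ (i : ℕ) + 1 = m + 2) := by omega
              rw [if_pos hij, if_neg h3, if_pos h2]
              simp
            · have h2 : ¬ ((i : ℕ) - 1 + 1 = (j : ℕ) - 1) := by omega
              rw [if_neg hij, if_neg h2]
              simp
  · intro i hi x
    obtain ⟨hi1, hi2⟩ := hi
    rw [hmapG, hmul]
    simp only [Function.Embedding.coeFn_mk, map_apply]
    have hfi : f i = Sum.inl ⟨i - 1, by have := i.isLt; omega⟩ := by
      simp only [f]
      rw [dif_neg (by omega), dif_neg (by omega)]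
    by_cases hx : x = f i
    · rw [if_pos hx, hfi, hG, if_pos (hx.trans hfi)]
      simp
    · rw [if_neg hx, hfi, hG, if_neg (by rw [← hfi]; exact hx)]
      simp

variable {ι : Type} [Fintype ι] [DecidableEq ι]

theorem CH_phase {M : Matrix ι ι ℂ} {k : ℕ} {h : ℝ} (H : CH M k h ∅) (u : ι → ℂ)
    (hu : ∀ i, u i * star (u i) = 1) :
    CH (fun a b => u a * M a b * star (u b)) k h ∅ := by
  obtain ⟨μ, _, _, f, N, hcard, hN, hM, hI⟩ := H
  let U : μ → ℂ := Function.extend f u 1
  have hU : ∀ x, star (U x) * U x = 1 := by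
    intro x
    by_cases hx : ∃ a, f a = x
    · obtain ⟨a, rfl⟩ := hx
      simp only [U, f.injective.extend_apply]
      rw [mul_comm, hu]
    · simp [U, Function.extend_apply' _ _ _ hx]
  have hD : (diagonal U)ᴴ * diagonal U = 1 := by
    rw [diagonal_conjTranspose, diagonal_mul_diagonal, ← diagonal_one]
    congr 1
    ext x
    exact hU x
  refine ⟨μ, inferInstance, inferInstance, f, diagonal U * N * (diagonal U)ᴴ, hcard, ?_, ?_, ?_⟩
  · have e1 : ∀ X Y : Matrix μ μ ℂ,
        (diagonal U * X * (diagonal U)ᴴ) * (diagonal U * Y * (diagonal U)ᴴ) =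
          diagonal U * (X * Y) * (diagonal U)ᴴ := by
      intro X Y
      calc (diagonal U * X * (diagonal U)ᴴ) * (diagonal U * Y * (diagonal U)ᴴ)
          = diagonal U * X * ((diagonal U)ᴴ * diagonal U) * Y * (diagonal U)ᴴ := by
            simp only [Matrix.mul_assoc]
        _ = _ := by rw [hD]; simp only [Matrix.mul_assoc, Matrix.one_mul]
    have e2 : (diagonal U * N * (diagonal U)ᴴ)ᴴ = diagonal U * Nᴴ * (diagonal U)ᴴ := by
      simp only [conjTranspose_mul, conjTranspose_conjTranspose, Matrix.mul_assoc]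
    rw [e2, e1, e1, hN]
  · intro i j
    rw [diagonal_conjTranspose, mul_diagonal, diagonal_mul, hM]
    simp [U, f.injective.extend_apply]
  · intro i hi
    exact absurd hi (by simp)

theorem CH_weaken {M : Matrix ι ι ℂ} {k : ℕ} {h : ℝ} {I J : Set ι} (H : CH M k h I) (hJ : J ⊆ I) :
    CH M k h J := by
  obtain ⟨μ, i1, i2, f, N, hcard, hN, hM, hI⟩ := H
  exact ⟨μ, i1, i2, f, N, hcard, hN, hM, fun i hi => hI i (hJ hi)⟩

theorem CH_congr {M M' : Matrix ι ι ℂ} {k k' : ℕ} {h : ℝ} {I : Set ι} (H : CH M k h I)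
    (hM : ∀ i j, M i j = M' i j) (hk : k = k') : CH M' k' h I := by
  obtain rfl : M = M' := by ext i j; exact hM i j
  subst hk
  exact H

theorem CH_rows {M : Matrix ι ι ℂ} {k : ℕ} {h : ℝ} {I : Set ι} (H : CH M k h I)
    {σ : Type} [DecidableEq σ] (e : σ → ι) (c : σ → ℝ) (hc : ∀ i, 0 ≤ c i ∧ c i ≤ 1) (T : Finset σ)
    (hT : ∀ i ∈ T, e i ∈ I) :
    CH (fun a b => (∏ i ∈ T, if a = e i then (c i : ℂ) else 1) * M a b) (k + T.card) h I := by
  induction T using Finset.induction_on with
  | empty => exact CH_congr H (by intro i j; simp) (by simp)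
  | insert i T hi ih =>
    have h1 := ih (fun j hj => hT j (Finset.mem_insert_of_mem hj))
    have h2 := CH_row h1 (hT i (Finset.mem_insert_self _ _)) (c i) (hc i).1 (hc i).2
    refine CH_congr h2 ?_ ?_
    · intro a b
      rw [Finset.prod_insert hi]
      ring
    · rw [Finset.card_insert_of_notMem hi]; ring

theorem CH_verts {M : Matrix ι ι ℂ} {k : ℕ} {h : ℝ} (H : CH M k h ∅)
    {σ : Type} [DecidableEq σ] (e : σ → ι) (c : σ → ℝ) (hc : ∀ i, 0 ≤ c i ∧ c i ≤ 1) (T : Finset σ) :
    CH (fun a b => (∏ i ∈ T, if a = e i then (c i : ℂ) else 1) * M a b *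
      (∏ i ∈ T, if b = e i then (c i : ℂ) else 1)) (k + T.card) h ∅ := by
  induction T using Finset.induction_on with
  | empty => exact CH_congr H (by intro i j; simp) (by simp)
  | insert i T hi ih =>
    have h2 := CH_vert (i := e i) ih (c i) (hc i).1 (hc i).2
    refine CH_congr h2 ?_ ?_
    · intro a b
      rw [Finset.prod_insert hi, Finset.prod_insert hi]
      ring
    · rw [Finset.card_insert_of_notMem hi]; ring

theorem HasNC_of_CH {m k : ℕ} {h : ℝ} {M : Matrix (Fin m) (Fin m) ℂ} (H : CH M k h ∅) : HasNC M k := by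
  obtain ⟨μ, _, _, f, N, hcard, hN, hM, -⟩ := H
  classical
  have hc : Fintype.card ((Set.range f)ᶜ : Set μ) = k := by
    rw [Fintype.card_compl_set, Set.card_range_of_injective f.injective, hcard]
    simp
  let e : Fin (m + k) ≃ μ := finSumFinEquiv.symm.trans
    ((Equiv.sumCongr (Equiv.ofInjective f f.injective) (Fintype.equivFinOfCardEq hc).symm).trans
      (Equiv.Set.sumCompl (Set.range f)))
  have he : ∀ i : Fin m, e (Fin.castAdd k i) = f i := by
    intro i
    simp [e]
  refine ⟨N.submatrix e e, ?_, ?_⟩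
  · rw [conjTranspose_submatrix, submatrix_mul_equiv, submatrix_mul_equiv, hN]
  · intro i j
    simp [he, hM]

end Helper495_ND
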