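import Mathlib
import Pool.Agent.Helper495_ND.Low

open Matrix

namespace Helper495_ND

theorem vanish {n : ℕ} [NeZero n] (a : Fin n → ℂ) {k : ℕ}
    (N : Matrix (Fin (n + k)) (Fin (n + k)) ℂ) (hN : N * Nᴴ = Nᴴ * N)
    (hM : ∀ i j : Fin n, N (Fin.castAdd k i) (Fin.castAdd k j) = cyc a i j)
    (hk : (Finset.univ.filter fun i : Fin n => ‖a (i - 1)‖ < ‖a i‖).card = k)
    (i : Fin n) (hi : ‖a (i - 1)‖ = ‖a i‖) (j : Fin k) :
    N (Fin.natAdd n j) (Fin.castAdd k i) = 0 ∧ N (Fin.castAdd k i) (Fin.natAdd n j) = 0 := by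
  classical
  set P := Finset.univ.filter fun i : Fin n => ‖a (i - 1)‖ < ‖a i‖ with hP
  have hiP : i ∉ P := by simp [hP, hi]
  by_contra hcon
  have hcard : (insert i P).card ≤ k := by
    apply card_le_of_form _ (fun j i => N (Fin.natAdd n j) (Fin.castAdd k i))
    intro w hw hC
    have h := key a N hN hM w
    simp only [hC, norm_zero] at h
    have hB : 0 ≤ ∑ j : Fin k, ‖∑ i, star (N (Fin.castAdd k i) (Fin.natAdd n j)) * w i‖ ^ 2 :=
      Finset.sum_nonneg fun _ _ => by positivity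
    have h2 : ∑ i, (‖a i‖ ^ 2 - ‖a (i - 1)‖ ^ 2) * ‖w i‖ ^ 2 =
        - ∑ j : Fin k, ‖∑ i, star (N (Fin.castAdd k i) (Fin.natAdd n j)) * w i‖ ^ 2 := by
      simp only [sub_mul, Finset.sum_sub_distrib]
      simp only [ne_eq, OfNat.ofNat_ne_zero, not_false_eq_true, zero_pow, Finset.sum_const_zero,
        add_zero] at h
      linarith
    have h3 : ∀ l ∈ Finset.univ, 0 ≤ (‖a l‖ ^ 2 - ‖a (l - 1)‖ ^ 2) * ‖w l‖ ^ 2 := by
      intro l _
      by_cases hl : ‖a (l - 1)‖ < ‖a l‖
      · have : ‖a (l - 1)‖ ^ 2 ≤ ‖a l‖ ^ 2 := by gcongr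
        apply mul_nonneg (by linarith) (by positivity)
      · by_cases hli : l = i
        · subst hli
          rw [hi]; simp
        · rw [hw l (by simp [hP, hli]; exact not_lt.mp hl)]
          simp
    have h5 := Finset.sum_nonneg h3
    have h6 : ∑ i, (‖a i‖ ^ 2 - ‖a (i - 1)‖ ^ 2) * ‖w i‖ ^ 2 = 0 := by linarith
    have h7 : ∑ j : Fin k, ‖∑ i, star (N (Fin.castAdd k i) (Fin.natAdd n j)) * w i‖ ^ 2 = 0 := by
      linarith
    have h4 := (Finset.sum_eq_zero_iff_of_nonneg h3).mp h6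
    have hw0 : ∀ l, l ≠ i → w l = 0 := by
      intro l hli
      by_cases hl : ‖a (l - 1)‖ < ‖a l‖
      · have h5 := h4 l (Finset.mem_univ _)
        have : ‖a (l - 1)‖ ^ 2 < ‖a l‖ ^ 2 := by gcongr
        rcases mul_eq_zero.mp h5 with h6 | h6
        · linarith
        · simpa using h6
      · exact hw l (by simp [hP, hli]; exact not_lt.mp hl)
    have h8 := (Finset.sum_eq_zero_iff_of_nonneg (fun _ _ => by positivity)).mp h7 j
      (Finset.mem_univ _)
    have h9 : star (N (Fin.castAdd k i) (Fin.natAdd n j)) * w i = 0 := by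
      rw [← Finset.sum_eq_single (f := fun i => star (N (Fin.castAdd k i) (Fin.natAdd n j)) * w i) i]
      · simpa using h8
      · intro l _ hl
        simp [hw0 l hl]
      · simp
    have h10 : N (Fin.natAdd n j) (Fin.castAdd k i) * w i = 0 := by
      rw [← Finset.sum_eq_single (f := fun i => N (Fin.natAdd n j) (Fin.castAdd k i) * w i) i]
      · exact hC j
      · intro l _ hl
        simp [hw0 l hl]
      · simp
    have hwi : w i = 0 := by
      by_contra hwi
      apply hcon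
      constructor
      · exact (mul_eq_zero.mp h10).resolve_right hwi
      · simpa using (mul_eq_zero.mp h9).resolve_right hwi
    ext l
    by_cases hl : l = i
    · rw [hl]; simpa using hwi
    · simpa using hw0 l hl
  rw [Finset.card_insert_of_notMem hiP] at hcard
  omega

/-- an ascent preceded by three equal nonzero moduli raises the lower bound by one -/
theorem lower_asc' {n : ℕ} [NeZero n] (a : Fin n → ℂ) {k : ℕ} (H : HasNC (cyc a) k) (p : Fin n)
    (h0 : ‖a (p - 1)‖ < ‖a p‖) (h1 : a (p - 1) ≠ 0) (h2 : ‖a (p - 1 - 1)‖ = ‖a (p - 1)‖)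
    (h3 : ‖a (p - 1 - 1 - 1)‖ = ‖a (p - 1 - 1)‖) :
    (Finset.univ.filter fun i : Fin n => ‖a (i - 1)‖ < ‖a i‖).card + 1 ≤ k := by
  have hle := lower_asc a H
  by_contra hlt
  have hk : (Finset.univ.filter fun i : Fin n => ‖a (i - 1)‖ < ‖a i‖).card = k := by omega
  obtain ⟨N, hN, hM⟩ := H
  have v1 := vanish a N hN hM hk (p - 1) h2
  have v2 := vanish a N hN hM hk (p - 1 - 1) h3
  have hc : ∀ j : Fin k, N (Fin.natAdd n j) (Fin.castAdd k p) = 0 := by
    intro j
    have h := congrFun (congrFun hN (Fin.castAdd k (p - 1))) (Fin.natAdd n j)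
    rw [mul_apply, mul_apply, Fin.sum_univ_add, Fin.sum_univ_add] at h
    simp only [conjTranspose_apply, hM, cyc, of_apply, (v1 _).1, (v1 _).2, zero_mul, star_zero,
      Finset.sum_const_zero, add_zero, sub_add_cancel] at h
    rw [Finset.sum_eq_single p, Finset.sum_eq_single (p - 1 - 1)] at h
    · simp only [sub_add_cancel, if_true, (v2 j).2, mul_zero] at h
      simpa using (mul_eq_zero.mp h).resolve_left h1
    · intro b _ hb
      rw [if_neg]
      · simp
      · intro hh
        exact hb (by rw [hh]; simp)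
    · simp
    · intro b _ hb
      rw [if_neg hb]; simp
    · simp
  have hkey := key a N hN hM (Pi.single p 1)
  simp only [Pi.single_apply, mul_ite, mul_one, mul_zero, Finset.sum_ite_eq', Finset.mem_univ,
    if_true, hc, norm_zero] at hkey
  have e1 : ∑ i, ‖a (i - 1)‖ ^ 2 * ‖(if i = p then (1 : ℂ) else 0)‖ ^ 2 = ‖a (p - 1)‖ ^ 2 := by
    rw [Finset.sum_eq_single p]
    · simp
    · intro b _ hb; simp [hb]
    · simp
  have e2 : ∑ i, ‖a i‖ ^ 2 * ‖(if i = p then (1 : ℂ) else 0)‖ ^ 2 = ‖a p‖ ^ 2 := by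
    rw [Finset.sum_eq_single p]
    · simp
    · intro b _ hb; simp [hb]
    · simp
  rw [e1, e2] at hkey
  have hB : 0 ≤ ∑ j : Fin k, ‖star (N (Fin.castAdd k p) (Fin.natAdd n j))‖ ^ 2 :=
    Finset.sum_nonneg fun _ _ => by positivity
  have : ‖a (p - 1)‖ ^ 2 < ‖a p‖ ^ 2 := by gcongr
  simp only [ne_eq, OfNat.ofNat_ne_zero, not_false_eq_true, zero_pow, Finset.sum_const_zero,
    add_zero] at hkey
  linarith

theorem vanish' {n : ℕ} [NeZero n] (a : Fin n → ℂ) {k : ℕ}
    (N : Matrix (Fin (n + k)) (Fin (n + k)) ℂ) (hN : N * Nᴴ = Nᴴ * N)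
    (hM : ∀ i j : Fin n, N (Fin.castAdd k i) (Fin.castAdd k j) = cyc a i j)
    (hk : (Finset.univ.filter fun i : Fin n => ‖a i‖ < ‖a (i - 1)‖).card = k)
    (i : Fin n) (hi : ‖a (i - 1)‖ = ‖a i‖) (j : Fin k) :
    N (Fin.natAdd n j) (Fin.castAdd k i) = 0 ∧ N (Fin.castAdd k i) (Fin.natAdd n j) = 0 := by
  classical
  set P := Finset.univ.filter fun i : Fin n => ‖a i‖ < ‖a (i - 1)‖ with hP
  have hiP : i ∉ P := by simp [hP, hi]
  by_contra hcon
  have hcard : (insert i P).card ≤ k := by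
    apply card_le_of_form _ (fun j i => star (N (Fin.castAdd k i) (Fin.natAdd n j)))
    intro w hw hC
    have h := key a N hN hM w
    simp only [hC, norm_zero] at h
    have hB : 0 ≤ ∑ j : Fin k, ‖∑ i, N (Fin.natAdd n j) (Fin.castAdd k i) * w i‖ ^ 2 :=
      Finset.sum_nonneg fun _ _ => by positivity
    have h2 : ∑ i, (‖a (i - 1)‖ ^ 2 - ‖a i‖ ^ 2) * ‖w i‖ ^ 2 =
        - ∑ j : Fin k, ‖∑ i, N (Fin.natAdd n j) (Fin.castAdd k i) * w i‖ ^ 2 := by
      simp only [sub_mul, Finset.sum_sub_distrib]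
      simp only [ne_eq, OfNat.ofNat_ne_zero, not_false_eq_true, zero_pow, Finset.sum_const_zero,
        add_zero] at h
      linarith
    have h3 : ∀ l ∈ Finset.univ, 0 ≤ (‖a (l - 1)‖ ^ 2 - ‖a l‖ ^ 2) * ‖w l‖ ^ 2 := by
      intro l _
      by_cases hl : ‖a l‖ < ‖a (l - 1)‖
      · have : ‖a l‖ ^ 2 ≤ ‖a (l - 1)‖ ^ 2 := by gcongr
        apply mul_nonneg (by linarith) (by positivity)
      · by_cases hli : l = i
        · subst hli
          rw [hi]; simp
        · rw [hw l (by simp [hP, hli]; exact not_lt.mp hl)]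
          simp
    have h5 := Finset.sum_nonneg h3
    have h6 : ∑ i, (‖a (i - 1)‖ ^ 2 - ‖a i‖ ^ 2) * ‖w i‖ ^ 2 = 0 := by linarith
    have h7 : ∑ j : Fin k, ‖∑ i, N (Fin.natAdd n j) (Fin.castAdd k i) * w i‖ ^ 2 = 0 := by
      linarith
    have h4 := (Finset.sum_eq_zero_iff_of_nonneg h3).mp h6
    have hw0 : ∀ l, l ≠ i → w l = 0 := by
      intro l hli
      by_cases hl : ‖a l‖ < ‖a (l - 1)‖
      · have h5 := h4 l (Finset.mem_univ _)
        have : ‖a l‖ ^ 2 < ‖a (l - 1)‖ ^ 2 := by gcongr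
        rcases mul_eq_zero.mp h5 with h6 | h6
        · linarith
        · simpa using h6
      · exact hw l (by simp [hP, hli]; exact not_lt.mp hl)
    have h8 := (Finset.sum_eq_zero_iff_of_nonneg (fun _ _ => by positivity)).mp h7 j
      (Finset.mem_univ _)
    have h9 : star (N (Fin.castAdd k i) (Fin.natAdd n j)) * w i = 0 := by
      rw [← Finset.sum_eq_single (f := fun i => star (N (Fin.castAdd k i) (Fin.natAdd n j)) * w i) i]
      · exact hC j
      · intro l _ hl
        simp [hw0 l hl]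
      · simp
    have h10 : N (Fin.natAdd n j) (Fin.castAdd k i) * w i = 0 := by
      rw [← Finset.sum_eq_single (f := fun i => N (Fin.natAdd n j) (Fin.castAdd k i) * w i) i]
      · simpa using h8
      · intro l _ hl
        simp [hw0 l hl]
      · simp
    have hwi : w i = 0 := by
      by_contra hwi
      apply hcon
      constructor
      · exact (mul_eq_zero.mp h10).resolve_right hwi
      · simpa using (mul_eq_zero.mp h9).resolve_right hwi
    ext l
    by_cases hl : l = i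
    · rw [hl]; simpa using hwi
    · simpa using hw0 l hl
  rw [Finset.card_insert_of_notMem hiP] at hcard
  omega


/-- a descent followed by three equal nonzero moduli raises the lower bound by one -/
theorem lower_desc' {n : ℕ} [NeZero n] (a : Fin n → ℂ) {k : ℕ} (H : HasNC (cyc a) k) (q : Fin n)
    (h0 : ‖a q‖ < ‖a (q - 1)‖) (h1 : a q ≠ 0) (h2 : ‖a (q + 1)‖ = ‖a q‖)
    (h3 : ‖a (q + 1 + 1)‖ = ‖a (q + 1)‖) :
    (Finset.univ.filter fun i : Fin n => ‖a i‖ < ‖a (i - 1)‖).card + 1 ≤ k := by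
  have hle := lower_desc a H
  by_contra hlt
  have hk : (Finset.univ.filter fun i : Fin n => ‖a i‖ < ‖a (i - 1)‖).card = k := by omega
  obtain ⟨N, hN, hM⟩ := H
  have v1 := vanish' a N hN hM hk (q + 1) (by rw [add_sub_cancel_right]; exact h2.symm)
  have v2 := vanish' a N hN hM hk (q + 1 + 1) (by rw [add_sub_cancel_right]; exact h3.symm)
  have hc : ∀ j : Fin k, N (Fin.castAdd k q) (Fin.natAdd n j) = 0 := by
    intro j
    have h := congrFun (congrFun hN (Fin.castAdd k (q + 1))) (Fin.natAdd n j)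
    rw [mul_apply, mul_apply, Fin.sum_univ_add, Fin.sum_univ_add] at h
    simp only [conjTranspose_apply, hM, cyc, of_apply, (v1 _).1, (v1 _).2, zero_mul, star_zero,
      Finset.sum_const_zero, add_zero] at h
    rw [Finset.sum_eq_single (q + 1 + 1), Finset.sum_eq_single q] at h
    · simp only [if_true, (v2 j).1, star_zero, mul_zero] at h
      rcases mul_eq_zero.mp h.symm with h5 | h5
      · exact absurd (by simpa using h5) h1
      · exact h5
    · intro b _ hb
      rw [if_neg]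
      · simp
      · intro hh
        exact hb (add_right_cancel hh).symm
    · simp
    · intro b _ hb
      rw [if_neg hb]; simp
    · simp
  have hkey := key a N hN hM (Pi.single q 1)
  simp only [Pi.single_apply, mul_ite, mul_one, mul_zero, Finset.sum_ite_eq', Finset.mem_univ,
    if_true, hc, norm_zero, star_zero] at hkey
  have e1 : ∑ i, ‖a (i - 1)‖ ^ 2 * ‖(if i = q then (1 : ℂ) else 0)‖ ^ 2 = ‖a (q - 1)‖ ^ 2 := by
    rw [Finset.sum_eq_single q]
    · simp
    · intro b _ hb; simp [hb]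
    · simp
  have e2 : ∑ i, ‖a i‖ ^ 2 * ‖(if i = q then (1 : ℂ) else 0)‖ ^ 2 = ‖a q‖ ^ 2 := by
    rw [Finset.sum_eq_single q]
    · simp
    · intro b _ hb; simp [hb]
    · simp
  rw [e1, e2] at hkey
  have hB : 0 ≤ ∑ j : Fin k, ‖N (Fin.natAdd n j) (Fin.castAdd k q)‖ ^ 2 :=
    Finset.sum_nonneg fun _ _ => by positivity
  have : ‖a q‖ ^ 2 < ‖a (q - 1)‖ ^ 2 := by gcongr
  simp only [ne_eq, OfNat.ofNat_ne_zero, not_false_eq_true, zero_pow, Finset.sum_const_zero,
    add_zero] at hkey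
  linarith

end Helper495_ND
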