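import Mathlib
import Pool.Agent.Helper495_ND.Asm

open Matrix

namespace Helper495_ND

theorem cardsplit {n : ℕ} [NeZero n] (P : Fin n → Prop) [DecidablePred P] :
    (Finset.univ.filter P).card = (Finset.univ.filter fun i : Fin n => i ≠ 0 ∧ P i).card +
      (if P 0 then 1 else 0) := by
  by_cases h0 : P 0
  · rw [if_pos h0]
    have : Finset.univ.filter P = insert 0 (Finset.univ.filter fun i : Fin n => i ≠ 0 ∧ P i) := by
      ext i
      simp only [Finset.mem_filter, Finset.mem_univ, true_and, Finset.mem_insert]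
      by_cases hi : i = 0
      · subst hi; simp [h0]
      · simp [hi]
    rw [this, Finset.card_insert_of_notMem (by simp)]
  · rw [if_neg h0, add_zero]
    congr 1
    ext i
    simp only [Finset.mem_filter, Finset.mem_univ, true_and]
    constructor
    · intro hi
      refine ⟨?_, hi⟩
      rintro rfl
      exact h0 hi
    · exact fun hi => hi.2

theorem prod_castSucc {n : ℕ} [NeZero n] (c : Fin n → ℝ) (i0 : Fin n) :
    (∏ i ∈ Finset.univ.filter (fun i : Fin n => i ≠ 0 ∧ c i ≠ 1),
      if i0.castSucc = i.castSucc then (c i : ℂ) else 1) = if i0 = 0 then 1 else (c i0 : ℂ) := by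
  simp only [Fin.castSucc_inj]
  rw [Finset.prod_ite_eq]
  simp only [Finset.mem_filter, Finset.mem_univ, true_and]
  by_cases h0 : i0 = 0
  · simp [h0]
  · by_cases h1 : c i0 = 1
    · simp [h0, h1]
    · simp [h0, h1]

theorem prod_last {n : ℕ} [NeZero n] (c : Fin n → ℝ) :
    (∏ i ∈ Finset.univ.filter (fun i : Fin n => i ≠ 0 ∧ c i ≠ 1),
      if Fin.last n = i.castSucc then (c i : ℂ) else 1) = 1 := by
  apply Finset.prod_eq_one
  intro i _
  rw [if_neg]
  exact (Fin.castSucc_lt_last i).ne'

noncomputable def ph (z : ℂ) : ℂ := if z = 0 then 1 else z / ‖z‖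

theorem ph_mul (z : ℂ) : (‖z‖ : ℂ) * ph z = z := by
  unfold ph
  split_ifs with h
  · simp [h]
  · have : (‖z‖ : ℂ) ≠ 0 := by exact_mod_cast (norm_ne_zero_iff.mpr h)
    field_simp

theorem ph_unit (z : ℂ) : ph z * star (ph z) = 1 := by
  unfold ph
  split_ifs with h
  · simp
  · have : (‖z‖ : ℂ) ≠ 0 := by exact_mod_cast (norm_ne_zero_iff.mpr h)
    rw [RCLike.star_def, Complex.mul_conj']
    simp [h]

noncomputable def uu {n : ℕ} (a : Fin n → ℂ) (i : Fin (n + 1)) : ℂ :=
  ∏ j ∈ Finset.univ.filter (fun j : Fin n => (j : ℕ) < i), star (ph (a j))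

theorem uu_unit {n : ℕ} (a : Fin n → ℂ) (i : Fin (n + 1)) : uu a i * star (uu a i) = 1 := by
  unfold uu
  rw [star_prod, ← Finset.prod_mul_distrib]
  apply Finset.prod_eq_one
  intro j _
  rw [star_star, mul_comm, ph_unit]

theorem uu_succ {n : ℕ} (a : Fin n → ℂ) (i j : Fin (n + 1)) (hij : (i : ℕ) + 1 = j) :
    uu a j = star (ph (a ⟨i, by omega⟩)) * uu a i := by
  unfold uu
  have h1 := Finset.prod_insert (f := fun l : Fin n => star (ph (a l)))
    (s := Finset.univ.filter (fun l : Fin n => (l : ℕ) < (i : ℕ))) (a := ⟨(i : ℕ), by omega⟩) (by simp)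
  rw [← h1]
  apply Finset.prod_congr _ (fun _ _ => rfl)
  ext l
  simp only [Finset.mem_filter, Finset.mem_univ, true_and, Finset.mem_insert, Fin.ext_iff]
  omega

theorem HasNC_zero {m : ℕ} (k : ℕ) : HasNC (0 : Matrix (Fin m) (Fin m) ℂ) k :=
  ⟨0, by simp, by simp⟩

theorem upper {n : ℕ} [NeZero n] (hn : 2 ≤ n) (a : Fin n → ℂ) (h : ℝ) (hh : 0 ≤ h) (θ x : Fin n → ℝ)
    (hθ : ∀ i, 0 ≤ θ i ∧ θ i ≤ 1) (hx : ∀ i, 0 ≤ x i ∧ x i ≤ 1)
    (ha : ∀ i, ‖a i‖ = h * θ i * θ (i + 1) * x i) :
    HasNC (line a) ((Finset.univ.filter fun i => θ i ≠ 1).card +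
      (Finset.univ.filter fun i => x i ≠ 1).card + 1) := by
  rcases hh.eq_or_lt with hz | hpos
  · have : line a = 0 := by
      ext i j
      simp only [line, of_apply, Matrix.zero_apply]
      split_ifs with hij
      · rw [← norm_eq_zero, ha, ← hz]; ring
      · rfl
    rw [this]
    exact HasNC_zero _
  obtain ⟨m, rfl⟩ : ∃ m, n = m + 2 := ⟨n - 2, by omega⟩
  set I : Set (Fin (m + 3)) := {i | 1 ≤ (i : ℕ) ∧ (i : ℕ) ≤ m + 1} with hI
  have B0 : CH (lineH (m + 2) (h * θ 0) h) (1 + if θ 0 ≠ 1 then 1 else 0) h I := by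
    by_cases h0 : θ 0 = 1
    · rw [if_neg (by simpa using h0), h0, mul_one]
      exact CH_weaken (base1 (m + 2) h) (Set.subset_univ _)
    · rw [if_pos h0]
      have : θ 0 < 1 := lt_of_le_of_ne (hθ 0).2 h0
      exact base2 m (h * θ 0) h (mul_nonneg hh (hθ 0).1) (by nlinarith)
  have B1 := CH_rows B0 (fun i : Fin (m + 2) => i.castSucc) x hx
    (Finset.univ.filter (fun i : Fin (m + 2) => i ≠ 0 ∧ x i ≠ 1)) (by
      intro i hi
      simp only [Finset.mem_filter, Finset.mem_univ, true_and] at hi
      have h1 : (i : ℕ) ≠ 0 := fun hh => hi.1 (Fin.ext (by simpa using hh))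
      have h2 := i.isLt
      simp only [hI, Set.mem_setOf_eq, Fin.val_castSucc]
      omega)
  set T := Finset.univ.filter (fun i : Fin (m + 2) => i ≠ 0 ∧ x i ≠ 1) with hT
  set T' := Finset.univ.filter (fun i : Fin (m + 2) => i ≠ 0 ∧ θ i ≠ 1) with hT'
  have B2 : CH (fun a b => (∏ i ∈ T, if a = i.castSucc then (x i : ℂ) else 1) *
      lineH (m + 2) (h * θ 0) h a b * (if b = 1 then (x 0 : ℂ) else 1))
      (1 + (if θ 0 ≠ 1 then 1 else 0) + T.card + if x 0 ≠ 1 then 1 else 0) h I := by
    by_cases h0 : x 0 = 1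
    · rw [if_neg (c := x 0 ≠ 1) (by simpa using h0)]
      exact CH_congr B1 (by intro i j; simp [h0]) rfl
    · rw [if_pos (c := x 0 ≠ 1) h0]
      exact CH_col B1 (i := 1) (by simp [hI]) (x 0) (hx 0).1 (hx 0).2
  have B3 := CH_verts (CH_weaken B2 (Set.empty_subset _)) (fun i : Fin (m + 2) => i.castSucc) θ hθ T'
  have B4 := CH_phase B3 (uu a) (uu_unit a)
  apply HasNC_of_CH (h := h)
  refine CH_congr B4 ?_ ?_
  · intro i j
    simp only [line, of_apply]
    by_cases hij : (i : ℕ) + 1 = (j : ℕ)
    · rw [dif_pos hij]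
      have hi2 : (i : ℕ) < m + 2 := by omega
      obtain ⟨i0, rfl⟩ : ∃ i0 : Fin (m + 2), i = i0.castSucc := ⟨⟨i, hi2⟩, rfl⟩
      have hi0 : (⟨(i0.castSucc : ℕ), by omega⟩ : Fin (m + 2)) = i0 := rfl
      rw [uu_succ a _ _ hij, hi0]
      have key : (∏ i ∈ T', if i0.castSucc = i.castSucc then (θ i : ℂ) else 1) *
          ((∏ i ∈ T, if i0.castSucc = i.castSucc then (x i : ℂ) else 1) *
          lineH (m + 2) (h * θ 0) h i0.castSucc j * (if j = 1 then (x 0 : ℂ) else 1)) *
          (∏ i ∈ T', if j = i.castSucc then (θ i : ℂ) else 1) = (‖a i0‖ : ℂ) := by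
        rw [hT', hT, prod_castSucc, prod_castSucc, ha]
        simp only [lineH, of_apply, if_pos hij]
        by_cases hi00 : i0 = 0
        · subst hi00
          have hj : j = (1 : Fin (m + 2)).castSucc := by
            apply Fin.ext
            simp at hij ⊢
            omega
          have hj1 : j = 1 := by
            rw [hj]; rfl
          rw [hj, prod_castSucc, if_pos rfl, if_pos rfl]
          have h10 : ¬ ((1 : Fin (m + 2)) = 0) := by simp
          rw [if_neg h10, ← hj, if_pos hj1, if_pos (Or.inl (by simp))]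
          push_cast
          rw [zero_add]
          ring
        · have hv : (i0 : ℕ) ≠ 0 := fun hh => hi00 (Fin.ext (by simpa using hh))
          have hj1 : ¬ (j = 1) := by
            intro hh
            rw [hh] at hij
            simp at hij
            exact hi00 hij
          rw [if_neg hi00, if_neg hi00, if_neg hj1]
          by_cases hl : (i0 : ℕ) = m + 1
          · have hj : j = Fin.last (m + 2) := by
              apply Fin.ext
              simp at hij ⊢
              omega
            have hi1 : i0 + 1 = 0 := by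
              apply Fin.ext
              rw [Fin.val_add, hl]
              simp
            rw [hj, prod_last, if_pos (Or.inr (by simp; omega)), hi1]
            push_cast
            ring
          · have hlt := i0.isLt
            have hi1 : ((i0 + 1 : Fin (m + 2)) : ℕ) = (i0 : ℕ) + 1 := by
              rw [Fin.val_add, Fin.val_one, Nat.mod_eq_of_lt (by omega)]
            have hj : j = (i0 + 1).castSucc := by
              apply Fin.ext
              rw [Fin.val_castSucc, hi1, ← hij]
              simp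
            have hne : ¬ (i0 + 1 = 0) := by
              intro hh
              have := congrArg Fin.val hh
              rw [hi1] at this
              simp at this
            rw [hj, prod_castSucc, if_neg hne, if_neg (by simp; omega)]
            push_cast
            ring
      calc _ = (uu a i0.castSucc * star (uu a i0.castSucc)) *
            ((∏ i ∈ T', if i0.castSucc = i.castSucc then (θ i : ℂ) else 1) *
          ((∏ i ∈ T, if i0.castSucc = i.castSucc then (x i : ℂ) else 1) *
          lineH (m + 2) (h * θ 0) h i0.castSucc j * (if j = 1 then (x 0 : ℂ) else 1)) *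
          (∏ i ∈ T', if j = i.castSucc then (θ i : ℂ) else 1)) * ph (a i0) := by
            rw [star_mul, star_star]; ring
        _ = a i0 := by rw [uu_unit, key, one_mul, ph_mul]
    · rw [dif_neg hij]
      simp [lineH, hij]
  · rw [cardsplit (fun i : Fin (m + 2) => θ i ≠ 1), cardsplit (fun i : Fin (m + 2) => x i ≠ 1)]
    ring

end Helper495_ND
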